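import Pool.Agent.W601.SQ.Stm

/-! Part `S_DEN` of the project SQ (MP_5131b0_al): density, size and coordinates. -/

set_option autoImplicit false
open scoped Classical Cardinal
open Filter Topology

namespace Pool.Agent.W252.SQ

open Pool.Agent.W601.SQ

theorem exists_pos_le (I : Finset ℝ) (δ : ℝ → ℝ) (h : ∀ β ∈ I, 0 < δ β) :
    ∃ ε : ℝ, 0 < ε ∧ ∀ β ∈ I, ε ≤ δ β := by
  rcases I.eq_empty_or_nonempty with rfl | hI
  · exact ⟨1, one_pos, by simp⟩
  · obtain ⟨b, hb, hmin⟩ := I.exists_min_image δ hI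
    exact ⟨δ b, h b hb, hmin⟩

theorem ip_single (α : ℝ) (y : ℝ → ℝ) : ip (Finsupp.single α 1) y = y α := by
  unfold ip
  rw [Finsupp.sum_single_index (by simp)]
  simp

theorem den : S_ALG → S_INJ → S_DEN := by
  intro hA hI θ hθ
  obtain ⟨hadd, hone, -, hcont, hsurj, -, hmem, -⟩ := hA
  obtain ⟨hinj, -⟩ := hI θ hθ
  obtain ⟨-, -, -, h4, h5⟩ := hθ
  refine ⟨?_, ?_, ?_, ?_⟩
  · rw [dense_iff_inter_open]
    rintro U hU ⟨w, hw⟩
    obtain ⟨I, u, hu, hsub⟩ := isOpen_pi_iff.mp hU w hw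
    choose t ht using fun β : ℝ => hsurj (w β)
    have hδ : ∀ β : ℝ, ∃ δ : ℝ, β ∈ I → 0 < δ ∧ ∀ y : ℝ, |y - t β| < δ → cx y ∈ u β := by
      intro β
      by_cases hβ : β ∈ I
      · have hopen : IsOpen (cx ⁻¹' (u β)) := (hu β hβ).1.preimage hcont
        have hmemt : t β ∈ cx ⁻¹' (u β) := by
          show cx (t β) ∈ u β
          rw [ht β]
          exact (hu β hβ).2
        obtain ⟨δ, hδ0, hball⟩ := Metric.isOpen_iff.mp hopen (t β) hmemt
        refine ⟨δ, fun _ => ⟨hδ0, fun y hy => ?_⟩⟩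
        have : y ∈ Metric.ball (t β) δ := by
          rw [Metric.mem_ball, Real.dist_eq]
          exact hy
        exact hball this
      · exact ⟨0, fun h => absurd h hβ⟩
    choose δ hδ using hδ
    obtain ⟨ε, hε, hle⟩ := exists_pos_le I δ fun β hβ => (hδ β hβ).1
    obtain ⟨α, hα⟩ := h5 I t ε hε
    refine ⟨gm θ (Finsupp.single α 1), hsub ?_, ?_⟩
    · intro β hβ
      have hβ' : β ∈ I := hβ
      show cx (ip (Finsupp.single α 1) (fun α => θ α β)) ∈ u β
      rw [ip_single]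
      exact (hδ β hβ').2 _ (lt_of_lt_of_le (hα β hβ') (hle β hβ'))
    · exact (hmem θ _).mpr ⟨_, rfl⟩
  · intro hcount
    apply Cardinal.not_countable_real
    refine Set.MapsTo.countable_of_injOn (f := fun α : ℝ => gm θ (Finsupp.single α 1))
      (t := (GG θ : Set (ℝ → Circle))) ?_ ?_ hcount
    · intro α _
      exact (hmem θ _).mpr ⟨_, rfl⟩
    · intro a _ b _ hab
      have h := hinj hab
      exact (Finsupp.single_left_inj one_ne_zero).mp h
  · have hs : Function.Surjective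
        (fun m : ℝ →₀ ℤ => (⟨gm θ m, (hmem θ _).mpr ⟨m, rfl⟩⟩ : ↥(GG θ))) := by
      rintro ⟨x, hx⟩
      obtain ⟨m, hm⟩ := (hmem θ x).mp hx
      exact ⟨m, Subtype.ext hm⟩
    refine (Cardinal.mk_le_of_surjective hs).trans ?_
    rw [Cardinal.mk_finsupp_of_infinite, Cardinal.mk_real, Cardinal.mk_int]
    exact max_le le_rfl Cardinal.aleph0_le_continuum
  · intro β
    obtain ⟨z, hz⟩ := h4 β
    refine ⟨cx z, ?_⟩
    intro g hg heq
    obtain ⟨m, rfl⟩ := (hmem θ g).mp hg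
    have h1 : cx (ip m (fun α => θ α β)) = cx z := heq
    have h2 : cx z = cx (ip m (fun α => θ α β)) * cx (z - ip m (fun α => θ α β)) := by
      rw [← hadd]
      congr 1
      ring
    have h3 : cx (z - ip m (fun α => θ α β)) = 1 := by
      rw [h1] at h2
      exact (left_eq_mul.mp h2)
    obtain ⟨n, hn⟩ := (hone _).mp h3
    apply hz m n
    rw [← hn]
    ring

end Pool.Agent.W252.SQ
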